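import Pool.Agent.Y45.PV.Stm
import Pool.Agent.Y45.MON.StmL

/-!
# Project PV (helper45): the group `R` (PV1)
-/

set_option autoImplicit false

namespace Pool.Agent.Y45.PV

open Pool.Agent.Y45.MON

theorem vv_map {r : ℕ} (w : WP r) {G H : Type} [Group G] [Group H] (φ : G →* H) (j : Fin r)
    (a b : G) : φ (vv w j a b) = vv w j (φ a) (φ b) := by
  simp [vv, Wj, X1, P0]

theorem vv_comm {r : ℕ} (w : WP r) {G : Type} [Group G] (j : Fin r) (a b : G)
    (h : a * b = b * a) : vv w j a b = a ^ w.δ j * a⁻¹ := by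
  have hc : Commute a b := h
  have h1 : Commute a (P0 w.M1 a b) := by
    unfold P0
    exact (((Commute.refl a).mul_right hc).mul_right ((Commute.refl a).pow_right _)).mul_right
      hc.inv_right
  have h2 : X1 w.M1 w.m2 a b = 1 := by
    unfold X1
    have h3 : Commute a (P0 w.M1 a b ^ w.m2) := h1.pow_right _
    rw [h3.eq]; group
  unfold vv Wj
  rw [h2]
  simp only [one_pow, mul_one]
  have h4 : Commute b a⁻¹ := hc.symm.inv_right
  rw [mul_assoc, mul_assoc, ← mul_assoc b, h4.eq]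
  group

theorem vv_one {r : ℕ} (w : WP r) {G : Type} [Group G] (j : Fin r) (b : G) :
    vv w j 1 b = 1 := by
  rw [vv_comm w j 1 b (by simp)]; simp

theorem vv_d1 {r : ℕ} (w : WP r) {G : Type} [Group G] (j : Fin r) (hj : w.δ j = 1) (a b : G)
    (h : a * b = b * a) : vv w j a b = 1 := by
  rw [vv_comm w j a b h, hj]; simp

theorem vv_d2 {r : ℕ} (w : WP r) {G : Type} [Group G] (j : Fin r) (hj : w.δ j = 2) (a b : G)
    (h : a * b = b * a) : vv w j a b = a := by
  rw [vv_comm w j a b h, hj]; group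

/-- the word `E(E(h, c_y), c_yy)` -/
def DD {r : ℕ} (w : WP r) (o j : Fin r) {G : Type} [Group G] (h c y : G) : G :=
  vv w j (vv w j h (vv w o c y)) (vv w o (vv w o c y) y)

theorem DD_comm {r : ℕ} (w : WP r) (o j : Fin r) (ho : w.δ o = 1) (hj : w.δ j = 2) {G : Type}
    [Group G] (h c y : G) (hc : c * y = y * c) : DD w o j h c y = h := by
  unfold DD
  rw [vv_d1 w o ho c y hc, vv_one, vv_d2 w j hj h 1 (by simp), vv_d2 w j hj h 1 (by simp)]

theorem DD_ncomm {r : ℕ} (w : WP r) {N : ℕ} {C : Type} {Φ : Fin r → C → C → C}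
    {ε : Fin r → C → C → ℕ} {G : Type} [Group G] {col : G → C} {rk : G → ℕ}
    (hM : MonP w N Φ ε G col rk) (o j : Fin r) (ho : ∀ c c', ε o c c' ≠ 1)
    (hj : w.δ j = 2) (P : ℕ)
    (hε : ∀ c c', ε j c c' = P) (h c y : G) (hc : c * y ≠ y * c) : DD w o j h c y ^ P = 1 := by
  have hy1 : y ≠ 1 := by rintro rfl; exact hc (by simp)
  set cy := vv w o c y with hcy
  have hcy1 : cy ≠ 1 := by
    intro h1
    have := hM.ord o c y hc
    rw [← hcy, h1, orderOf_one] at this
    exact ho _ _ this.symm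
  have hrk1 : rk y < rk cy := (hM.rk1 o c y hc).2
  have hcyy : cy * y ≠ y * cy := by
    intro h1
    have := hM.rkc cy y hcy1 hy1 h1
    omega
  set cyy := vv w o cy y with hcyy'
  have hcyy1 : cyy ≠ 1 := by
    intro h1
    have := hM.ord o cy y hcyy
    rw [← hcyy', h1, orderOf_one] at this
    exact ho _ _ this.symm
  have hrk2 : rk cy < rk cyy := (hM.rk1 o cy y hcyy).1
  have hpow : ∀ a b : G, a * b ≠ b * a → vv w j a b ^ P = 1 := by
    intro a b hab
    rw [← hε (col a) (col b), ← hM.ord j a b hab]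
    exact pow_orderOf_eq_one _
  have hD : DD w o j h c y = vv w j (vv w j h cy) cyy := rfl
  rw [hD]
  by_cases h1 : h = 1
  · subst h1
    rw [vv_one, vv_one, one_pow]
  · by_cases h2 : h * cy = cy * h
    · rw [vv_d2 w j hj h cy h2]
      apply hpow
      intro h3
      have h4 := hM.rkc h cy h1 hcy1 h2
      have h5 := hM.rkc h cyy h1 hcyy1 h3
      omega
    · have h3 := hpow h cy h2
      by_cases h4 : vv w j h cy * cyy = cyy * vv w j h cy
      · rw [vv_d2 w j hj _ _ h4, h3]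
      · exact hpow _ _ h4

theorem DD_map {r : ℕ} (w : WP r) (o j : Fin r) {G H : Type} [Group G] [Group H] (φ : G →* H)
    (h c y : G) : φ (DD w o j h c y) = DD w o j (φ h) (φ c) (φ y) := by
  simp [DD, vv_map]

/-- the words of increasing rank -/
def tt {r : ℕ} (w : WP r) (o : Fin r) {G : Type} [Group G] (a b : G) : ℕ → G
  | 0 => vv w o a b
  | n + 1 => vv w o (tt w o a b n) a

theorem tt_map {r : ℕ} (w : WP r) (o : Fin r) {G H : Type} [Group G] [Group H] (φ : G →* H)
    (a b : G) (n : ℕ) : φ (tt w o a b n) = tt w o (φ a) (φ b) n := by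
  induction n with
  | zero => exact vv_map w φ o a b
  | succ n ih => rw [tt, vv_map, ih, tt]

theorem tt_rk {r : ℕ} (w : WP r) {N : ℕ} {C : Type} {Φ : Fin r → C → C → C}
    {ε : Fin r → C → C → ℕ} {G : Type} [Group G] {col : G → C} {rk : G → ℕ}
    (hM : MonP w N Φ ε G col rk) (o : Fin r) (ho : ∀ c c', ε o c c' ≠ 1) (a b : G)
    (hab : a * b ≠ b * a) (n : ℕ) : tt w o a b n ≠ 1 ∧ rk a < rk (tt w o a b n) ∧
      rk (tt w o a b n) < rk (tt w o a b (n + 1)) := by
  have ha : a ≠ 1 := by rintro rfl; exact hab (by simp)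
  have key : ∀ n, tt w o a b n ≠ 1 ∧ rk a < rk (tt w o a b n) := by
    intro n
    have hne : ∀ x y : G, x * y ≠ y * x → vv w o x y ≠ 1 := by
      intro x y hxy h1
      have := hM.ord o x y hxy
      rw [h1, orderOf_one] at this
      exact ho _ _ this.symm
    induction n with
    | zero => exact ⟨hne a b hab, (hM.rk1 o a b hab).1⟩
    | succ n ih =>
      have h1 : tt w o a b n * a ≠ a * tt w o a b n := by
        intro h2
        have := hM.rkc _ _ ih.1 ha h2
        omega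
      exact ⟨hne _ _ h1, (hM.rk1 o _ _ h1).2⟩
  have h1 : tt w o a b n * a ≠ a * tt w o a b n := by
    intro h2
    have := hM.rkc _ _ (key n).1 ha h2
    have := (key n).2
    omega
  exact ⟨(key n).1, (key n).2, (hM.rk1 o _ _ h1).1⟩

/-- PV1 -/
theorem star (hMon : MonStmt) : StarStmt := by
  obtain ⟨w, n0, hδ, hn0, hw⟩ := hMon 4 ![1, 1, 2, 2] (by
    intro j; fin_cases j <;> simp)
  obtain ⟨p, hp0, hp⟩ := Nat.exists_infinite_primes n0
  obtain ⟨q, hq0, hq⟩ := Nat.exists_infinite_primes (p + 1)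
  have hpq : p ≠ q := by omega
  have hN1 : p * q ≠ 1 := by
    intro h
    exact hp.one_lt.ne' (Nat.dvd_one.1 ⟨q, h.symm⟩)
  obtain ⟨R, iR, col, rk, hM⟩ := hw (p * q) hN1 (by
    intro l hl hlN
    rcases (hl.dvd_mul).1 hlN with h | h
    · rw [(Nat.prime_dvd_prime_iff_eq hl hp).1 h]; exact hp0
    · rw [(Nat.prime_dvd_prime_iff_eq hl hq).1 h]; omega) Unit ⟨()⟩ (fun _ _ _ => ())
    (fun j _ _ => ![p, q, p, q] j) (by
      intro j _ _
      fin_cases j
      · exact ⟨⟨q, rfl⟩, hp.one_lt.ne'⟩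
      · exact ⟨⟨p, mul_comm _ _⟩, hq.one_lt.ne'⟩
      · exact ⟨⟨q, rfl⟩, hp.one_lt.ne'⟩
      · exact ⟨⟨p, mul_comm _ _⟩, hq.one_lt.ne'⟩)
  have hcop : Nat.Coprime p q := (Nat.coprime_primes hp hq).2 hpq
  have hbez : (p : ℤ) * Nat.gcdA p q + (q : ℤ) * Nat.gcdB p q = 1 := by
    have := Nat.gcd_eq_gcd_ab p q
    rw [hcop] at this
    exact_mod_cast this.symm
  have d0 : w.δ 0 = 1 := by rw [hδ]; rfl
  have d1 : w.δ 1 = 1 := by rw [hδ]; rfl
  have d2 : w.δ 2 = 2 := by rw [hδ]; rfl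
  have d3 : w.δ 3 = 2 := by rw [hδ]; rfl
  let x0 : FreeGroup (Fin 2) := FreeGroup.of 0
  let x1 : FreeGroup (Fin 2) := FreeGroup.of 1
  let h0 : FreeGroup (Fin 3) := FreeGroup.of 0
  let c0 : FreeGroup (Fin 3) := FreeGroup.of 1
  let y0 : FreeGroup (Fin 3) := FreeGroup.of 2
  let pw : FreeGroup (Fin 3) := DD w 0 2 h0 c0 y0 ^ ((p : ℤ) * Nat.gcdA p q) *
    DD w 0 3 h0 c0 y0 ^ ((q : ℤ) * Nat.gcdB p q)
  have hpw : ∀ (G : Type) [Group G] (a c y : G), FreeGroup.lift ![a, c, y] pw =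
      DD w 0 2 a c y ^ ((p : ℤ) * Nat.gcdA p q) * DD w 0 3 a c y ^ ((q : ℤ) * Nat.gcdB p q) := by
    intro G _ a c y
    simp only [pw, map_mul, map_zpow, DD_map, h0, c0, y0, FreeGroup.lift_apply_of]
    rfl
  have hvv : ∀ (j : Fin 4) (G : Type) [Group G] (a b : G), FreeGroup.lift ![a, b] (vv w j x0 x1) =
      vv w j a b := by
    intro j G _ a b
    rw [vv_map]; simp [x0, x1]
  have htt : ∀ (n : ℕ) (G : Type) [Group G] (a b : G), FreeGroup.lift ![a, b] (tt w 0 x0 x1 n) =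
      tt w 0 a b n := by
    intro j G _ a b
    rw [tt_map]; simp [x0, x1]
  have ho : ∀ c c' : Unit, (fun (j : Fin 4) (_ _ : Unit) => ![p, q, p, q] j) 0 c c' ≠ 1 := by
    intro _ _; exact hp.one_lt.ne'
  refine ⟨p, q, pw, vv w 0 x0 x1, vv w 1 x0 x1, tt w 0 x0 x1, R, iR, hp, hq, hpq, ?_, ?_⟩
  · intro G _ a c y hc
    rw [hpw, DD_comm w 0 2 d0 d2 a c y hc, DD_comm w 0 3 d0 d3 a c y hc, ← zpow_add, hbez,
      zpow_one]
  · refine ⟨hM.exp, ?_, ?_, ?_, ?_, ?_, ?_, ?_⟩
    · obtain ⟨x, y, -, h⟩ := hM.gen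
      exact ⟨x, y, h⟩
    · intro a c y hc
      have h1 := DD_ncomm w hM 0 2 ho d2 p (fun _ _ => rfl) a c y hc
      have h2 := DD_ncomm w hM 0 3 ho d3 q (fun _ _ => rfl) a c y hc
      rw [hpw, zpow_mul, zpow_mul, zpow_natCast, zpow_natCast, h1, h2]
      simp
    · intro a b hab
      rw [hvv, vv_d1 w 0 d0 a b hab]
    · intro a b hab
      rw [hvv, vv_d1 w 1 d1 a b hab]
    · intro a b hab
      rw [hvv]
      have h1 : orderOf (vv w 0 a b) = p := hM.ord 0 a b hab
      constructor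
      · intro h2
        rw [h2, orderOf_one] at h1
        exact hp.one_lt.ne h1
      · rw [← h1]; exact pow_orderOf_eq_one _
    · intro a b hab
      rw [hvv]
      have h1 : orderOf (vv w 1 a b) = q := hM.ord 1 a b hab
      constructor
      · intro h2
        rw [h2, orderOf_one] at h1
        exact hq.one_lt.ne h1
      · rw [← h1]; exact pow_orderOf_eq_one _
    · intro a b hab i j hij
      rw [htt, htt]
      have hmono : StrictMono fun n => rk (tt w 0 a b n) :=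
        strictMono_nat_of_lt_succ fun n => (tt_rk w hM 0 ho a b hab n).2.2
      intro h
      exact hij (hmono.injective (congrArg rk h))

end Pool.Agent.Y45.PV
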