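import Pool.Agent.Y45.PV.Stm

/-!
# Project PV (helper45): assembly
-/

set_option autoImplicit false

namespace Pool.Agent.Y45.PV

universe u v

/-- the primitive variety in `Type` -/
theorem asm0 (hStar : StarStmt) (hMT : MaxTStmt) (hMG : MaxGStmt) (hPi : PiStmt)
    (hLaw : LawStmt) (hAbQ : AbQStmt) : ∃ (W : Set (FreeGroup ℕ)) (n : ℕ), 0 < n ∧
      (∀ (G : Type) [Group G], SatL W G → ∀ g : G, g ^ n = 1) ∧
      (∀ Q : Set QI, (∀ (G : Type) [Group G], SatQ Q G → SatL W G) →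
        ∃ W' : Set (FreeGroup ℕ), ∀ (G : Type) [Group G], SatQ Q G ↔ SatL W' G) ∧
      ∃ (G : Type) (_ : Group G), SatL W G ∧ Group.FG G ∧ Infinite G := by
  obtain ⟨p, q, pw, ep, eq, t, R, iR, hp, hq, hpq, hF, hS⟩ := hStar
  obtain ⟨T, hT0, hTn, hTm⟩ := hMT (Thq R) ⟨R, iR, fun s hs => hs, hS.nab⟩
  obtain ⟨G, iG, hG, ⟨x, y, hgen, hxy⟩, hmax⟩ := hMG T hTn
  have hpi : PiG p q pw G := hPi p q pw ep eq t R hp hq hpq hF hS T hT0 G hG ⟨x, y, hxy⟩ hmax
  have hTG : Thq G = T := hTm G hG ⟨x, y, hxy⟩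
  have hexp : ∀ (H : Type) [Group H], SatL (Idt G) H → ∀ g : H, g ^ (p * q) = 1 := by
    intro H _ hH g
    have h1 : (FreeGroup.of 0 ^ (p * q) : FreeGroup ℕ) ∈ Idt G := by
      intro f; simp [hpi.exp]
    have := hH _ h1 fun _ => g
    simpa using this
  refine ⟨Idt G, p * q, Nat.mul_pos hp.pos hq.pos, hexp, ?_, G, iG, fun w hw => hw, ?_, hpi.inf⟩
  · intro Q hQ
    have hLT : ∀ (H : Type) [Group H], SatL (Idt G) H → SatQ T H := by
      intro H _ hH s hs
      rw [← hTG] at hs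
      exact hLaw p q pw hp hq hpq hF G hpi s hs H hH
    by_cases hab : ∃ (H : Type) (_ : Group H), SatQ Q H ∧ ∃ a b : H, a * b ≠ b * a
    · obtain ⟨H, iH, hH, hnab⟩ := hab
      have hTH : Thq H = T := hTm H (hLT H (hQ H hH)) hnab
      have hQT : Q ⊆ T := by rw [← hTH]; exact hH
      refine ⟨Idt G, fun K iK => ⟨fun h => hQ K h, fun h => ?_⟩⟩
      exact fun s hs => hLT K h s (hQT hs)
    · push Not at hab
      exact hAbQ p q hp hq hpq Q fun K iK hK => ⟨fun a b => hab K iK hK a b,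
        hexp K (hQ K hK)⟩
  · rw [Group.fg_iff]
    exact ⟨{x, y}, hgen, by simp⟩

/-- `SatQ` is decided by the countable subgroups -/
theorem satQ_iff_free {Q : Set QI} {G : Type u} [Group G] :
    SatQ Q G ↔ ∀ f : ℕ → G, SatQ Q (FreeGroup ℕ ⧸ (FreeGroup.lift f).ker) := by
  constructor
  · intro h f
    exact h.of_injective (QuotientGroup.kerLift (FreeGroup.lift f))
      (QuotientGroup.kerLift_injective _)
  · intro h s hs f hf
    have h1 : ∀ w : FreeGroup ℕ, FreeGroup.lift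
        (fun i => (QuotientGroup.mk (FreeGroup.of i) : FreeGroup ℕ ⧸ (FreeGroup.lift f).ker)) w
        = QuotientGroup.mk w := by
      intro w
      have : FreeGroup.lift
        (fun i => (QuotientGroup.mk (FreeGroup.of i) : FreeGroup ℕ ⧸ (FreeGroup.lift f).ker))
        = QuotientGroup.mk' _ := by
        ext i; simp
      rw [this]; rfl
    have h2 := h f s hs (fun i => QuotientGroup.mk (FreeGroup.of i)) (fun w hw => by
      rw [h1, QuotientGroup.eq_one_iff]
      exact hf w hw)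
    rw [h1, QuotientGroup.eq_one_iff] at h2
    exact h2

/-- laws as quasi-identities -/
def toQ (W : Set (FreeGroup ℕ)) : Set QI := (fun w => ([], w)) '' W

theorem satL_iff_toQ {W : Set (FreeGroup ℕ)} {G : Type u} [Group G] :
    SatL W G ↔ SatQ (toQ W) G := by
  constructor
  · rintro h s ⟨w, hw, rfl⟩ f -
    exact h w hw f
  · intro h w hw f
    exact h ([], w) ⟨w, hw, rfl⟩ f (by simp)

theorem satL_iff_free {W : Set (FreeGroup ℕ)} {G : Type u} [Group G] :
    SatL W G ↔ ∀ f : ℕ → G, SatL W (FreeGroup ℕ ⧸ (FreeGroup.lift f).ker) := by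
  rw [satL_iff_toQ, satQ_iff_free]
  exact forall_congr' fun f => satL_iff_toQ.symm

theorem satQ_ulift {Q : Set QI} {G : Type} [Group G] :
    SatQ Q (ULift.{u} G) ↔ SatQ Q G :=
  ⟨fun h => h.of_injective (MulEquiv.ulift.{0, u} (α := G)).symm.toMonoidHom
      (MulEquiv.ulift.{0, u} (α := G)).symm.injective,
    fun h => h.of_injective (MulEquiv.ulift.{0, u} (α := G)).toMonoidHom
      (MulEquiv.ulift.{0, u} (α := G)).injective⟩

theorem satL_ulift {W : Set (FreeGroup ℕ)} {G : Type} [Group G] :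
    SatL W (ULift.{u} G) ↔ SatL W G := by
  rw [satL_iff_toQ, satL_iff_toQ, satQ_ulift]

/-- the primitive variety in every universe -/
theorem asm (hStar : StarStmt) (hMT : MaxTStmt) (hMG : MaxGStmt) (hPi : PiStmt)
    (hLaw : LawStmt) (hAbQ : AbQStmt) : ∃ (W : Set (FreeGroup ℕ)) (n : ℕ), 0 < n ∧
      (∀ (G : Type u) [Group G], SatL W G → ∀ g : G, g ^ n = 1) ∧
      (∀ Q : Set QI, (∀ (G : Type u) [Group G], SatQ Q G → SatL W G) →
        ∃ W' : Set (FreeGroup ℕ), ∀ (G : Type u) [Group G], SatQ Q G ↔ SatL W' G) ∧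
      ∃ (G : Type u) (_ : Group G), SatL W G ∧ Group.FG G ∧ Infinite G := by
  obtain ⟨W, n, hn, h1, h2, G, iG, h3, h4, h5⟩ := asm0 hStar hMT hMG hPi hLaw hAbQ
  refine ⟨W, n, hn, ?_, ?_, ULift.{u} G, inferInstance, satL_ulift.2 h3, ?_, inferInstance⟩
  · intro H _ hH g
    rw [satL_iff_free] at hH
    have h := h1 _ (hH fun _ => g)
      (QuotientGroup.mk (FreeGroup.of 0) : FreeGroup ℕ ⧸ (FreeGroup.lift fun _ : ℕ => g).ker)
    rw [← QuotientGroup.mk_pow, QuotientGroup.eq_one_iff, MonoidHom.mem_ker] at h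
    simpa using h
  · intro Q hQ
    obtain ⟨W', hW'⟩ := h2 Q fun K _ hK => satL_ulift.1 (hQ _ (satQ_ulift.2 hK))
    refine ⟨W', fun K _ => ?_⟩
    rw [satQ_iff_free, satL_iff_free]
    exact forall_congr' fun f => hW' _
  · have := h4
    exact Group.fg_of_surjective (f := (MulEquiv.ulift.{0, u} (α := G)).symm.toMonoidHom)
      MulEquiv.ulift.symm.surjective

end Pool.Agent.Y45.PV
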