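import Mathlib

/-!
# Project PV (helper45): primitive varieties of groups which are not locally finite
(MP_6f5fa7_al, Q2)
-/

set_option autoImplicit false

namespace Pool.Agent.Y45.PV

universe u v

/-- quasi-identities: the list of the premises `w = 1` and the conclusion -/
abbrev QI := List (FreeGroup ℕ) × FreeGroup ℕ

/-- `G` satisfies the laws `w = 1`, `w ∈ W` -/
def SatL (W : Set (FreeGroup ℕ)) (G : Type u) [Group G] : Prop :=
  ∀ w ∈ W, ∀ f : ℕ → G, FreeGroup.lift f w = 1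

/-- `G` satisfies the quasi-identities in `Q` -/
def SatQ (Q : Set QI) (G : Type u) [Group G] : Prop :=
  ∀ s ∈ Q, ∀ f : ℕ → G, (∀ w ∈ s.1, FreeGroup.lift f w = 1) → FreeGroup.lift f s.2 = 1

/-- the laws of `G` -/
def Idt (G : Type u) [Group G] : Set (FreeGroup ℕ) :=
  {w | ∀ f : ℕ → G, FreeGroup.lift f w = 1}

/-- the quasi-identities of `G` -/
def Thq (G : Type u) [Group G] : Set QI :=
  {s | ∀ f : ℕ → G, (∀ w ∈ s.1, FreeGroup.lift f w = 1) → FreeGroup.lift f s.2 = 1}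

theorem SatQ.of_injective {Q : Set QI} {G : Type u} [Group G] {H : Type v} [Group H]
    (φ : H →* G) (hφ : Function.Injective φ) (h : SatQ Q G) : SatQ Q H := by
  intro s hs f hf
  apply hφ
  have key : ∀ w : FreeGroup ℕ, φ (FreeGroup.lift f w) = FreeGroup.lift (fun i => φ (f i)) w := by
    intro w
    have : φ.comp (FreeGroup.lift f) = FreeGroup.lift (fun i => φ (f i)) := by
      ext i; simp
    exact DFunLike.congr_fun this w
  rw [key, map_one]
  apply h s hs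
  intro w hw
  rw [← key, hf w hw, map_one]

theorem SatL.of_injective {W : Set (FreeGroup ℕ)} {G : Type u} [Group G] {H : Type v} [Group H]
    (φ : H →* G) (hφ : Function.Injective φ) (h : SatL W G) : SatL W H := by
  intro w hw f
  apply hφ
  have : φ.comp (FreeGroup.lift f) = FreeGroup.lift (fun i => φ (f i)) := by
    ext i; simp
  have h1 := DFunLike.congr_fun this w
  simp only [MonoidHom.comp_apply] at h1
  rw [h1, map_one]
  exact h w hw _

theorem satQ_iff {Q : Set QI} {G : Type u} [Group G] : SatQ Q G ↔ Q ⊆ Thq G := Iff.rfl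

theorem satL_iff {W : Set (FreeGroup ℕ)} {G : Type u} [Group G] : SatL W G ↔ W ⊆ Idt G := Iff.rfl

/-- laws which hold in `R` hold in the models of the quasi-identities of `R` -/
theorem idt_of_thq {R G : Type} [Group R] [Group G] {T : Set QI} (hT : Thq R ⊆ T)
    (hG : SatQ T G) {w : FreeGroup ℕ} (hw : w ∈ Idt R) : w ∈ Idt G := by
  intro f
  exact hG ([], w) (hT fun f _ => hw f) f (by simp)

/-- the group `R` from which we start: `pw` is a ternary word with `pw(a,c,y) = 1` for all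
noncommuting `c`, `y` -/
structure Star (p q : ℕ) (pw : FreeGroup (Fin 3)) (ep eq : FreeGroup (Fin 2))
    (t : ℕ → FreeGroup (Fin 2)) (R : Type) [Group R] : Prop where
  exp : ∀ g : R, g ^ (p * q) = 1
  nab : ∃ x y : R, x * y ≠ y * x
  pr : ∀ a c y : R, c * y ≠ y * c → FreeGroup.lift ![a, c, y] pw = 1
  epc : ∀ a b : R, a * b = b * a → FreeGroup.lift ![a, b] ep = 1
  eqc : ∀ a b : R, a * b = b * a → FreeGroup.lift ![a, b] eq = 1
  epn : ∀ a b : R, a * b ≠ b * a →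
    FreeGroup.lift ![a, b] ep ≠ 1 ∧ (FreeGroup.lift ![a, b] ep) ^ p = 1
  eqn : ∀ a b : R, a * b ≠ b * a →
    FreeGroup.lift ![a, b] eq ≠ 1 ∧ (FreeGroup.lift ![a, b] eq) ^ q = 1
  inf : ∀ a b : R, a * b ≠ b * a → ∀ i j : ℕ, i ≠ j →
    FreeGroup.lift ![a, b] (t i) ≠ FreeGroup.lift ![a, b] (t j)

/-- the formal property of `pw` -/
def Frm (pw : FreeGroup (Fin 3)) : Prop :=
  ∀ (G : Type) [Group G] (a c y : G), c * y = y * c → FreeGroup.lift ![a, c, y] pw = a

/-- PV1 -/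
def StarStmt : Prop := ∃ (p q : ℕ) (pw : FreeGroup (Fin 3)) (ep eq : FreeGroup (Fin 2))
  (t : ℕ → FreeGroup (Fin 2)) (R : Type) (_ : Group R),
  p.Prime ∧ q.Prime ∧ p ≠ q ∧ Frm pw ∧ Star p q pw ep eq t R

/-- PV2: maximal theories with a nonabelian model -/
def MaxTStmt : Prop := ∀ T0 : Set QI,
  (∃ (G : Type) (_ : Group G), SatQ T0 G ∧ ∃ x y : G, x * y ≠ y * x) →
  ∃ T : Set QI, T0 ⊆ T ∧ (∃ (G : Type) (_ : Group G), SatQ T G ∧ ∃ x y : G, x * y ≠ y * x) ∧
    ∀ (G : Type) [Group G], SatQ T G → (∃ x y : G, x * y ≠ y * x) → Thq G = T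

/-- PV3: a maximal quotient -/
def MaxGStmt : Prop := ∀ T : Set QI,
  (∃ (G : Type) (_ : Group G), SatQ T G ∧ ∃ x y : G, x * y ≠ y * x) →
  ∃ (G : Type) (_ : Group G), SatQ T G ∧
    (∃ x y : G, Subgroup.closure {x, y} = ⊤ ∧ x * y ≠ y * x) ∧
    ∀ (K : Subgroup G) [K.Normal], K ≠ ⊥ → SatQ T (G ⧸ K) → ∀ a b : G ⧸ K, a * b = b * a

/-- the groups for which laws are as strong as quasi-identities -/
structure PiG (p q : ℕ) (pw : FreeGroup (Fin 3)) (G : Type) [Group G] : Prop where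
  exp : ∀ g : G, g ^ (p * q) = 1
  nab : ∃ x y : G, x * y ≠ y * x
  pr : ∀ a c y : G, c * y ≠ y * c → FreeGroup.lift ![a, c, y] pw = 1
  op : ∃ g : G, orderOf g = p
  oq : ∃ g : G, orderOf g = q
  inf : Infinite G

/-- PV4 -/
def PiStmt : Prop := ∀ (p q : ℕ) (pw : FreeGroup (Fin 3)) (ep eq : FreeGroup (Fin 2))
  (t : ℕ → FreeGroup (Fin 2)) (R : Type) [Group R], p.Prime → q.Prime → p ≠ q → Frm pw →
  Star p q pw ep eq t R → ∀ T : Set QI, Thq R ⊆ T → ∀ (G : Type) [Group G], SatQ T G →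
  (∃ x y : G, x * y ≠ y * x) →
  (∀ (K : Subgroup G) [K.Normal], K ≠ ⊥ → SatQ T (G ⧸ K) → ∀ a b : G ⧸ K, a * b = b * a) →
  PiG p q pw G

/-- PV5: a homomorphism of a commutative group of exponent `p * q` to a cyclic group of prime
order which does not vanish on `b` -/
def AbStmt : Prop := ∀ (p q : ℕ), p.Prime → q.Prime → p ≠ q → ∀ (B : Type) [CommGroup B],
  (∀ b : B, b ^ (p * q) = 1) → ∀ b : B, b ≠ 1 →
  (∃ φ : B →* Multiplicative (ZMod p), φ b ≠ 1) ∨ (∃ φ : B →* Multiplicative (ZMod q), φ b ≠ 1)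

/-- PV6 -/
def LawStmt : Prop := ∀ (p q : ℕ) (pw : FreeGroup (Fin 3)), p.Prime → q.Prime → p ≠ q → Frm pw →
  ∀ (G : Type) [Group G], PiG p q pw G → ∀ s ∈ Thq G, ∀ (H : Type) [Group H],
  SatL (Idt G) H → s ∈ Thq H

/-- PV7 -/
def AbQStmt : Prop := ∀ (p q : ℕ), p.Prime → q.Prime → p ≠ q → ∀ Q : Set QI,
  (∀ (G : Type) [Group G], SatQ Q G → (∀ a b : G, a * b = b * a) ∧ ∀ g : G, g ^ (p * q) = 1) →
  ∃ W : Set (FreeGroup ℕ), ∀ (G : Type) [Group G], SatQ Q G ↔ SatL W G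

end Pool.Agent.Y45.PV
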